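import Mathlib

/-!
# MP_e2d93f: for every `k` the complete graph on `3k+4` vertices is a semi-arc `k`-visibility graph
-/

namespace Pool.Agent.Results.MP_e2d93f_co.AllK

/-- The point with signed radius `t` in direction `φ` (so `t < 0` is the opposite ray). -/
noncomputable def pt (t φ : ℝ) : ℂ := (t : ℂ) * Complex.exp ((φ : ℂ) * Complex.I)

/-- An arc `{(r, α) : a ≤ α ≤ b}` in polar coordinates. -/
structure Arc where
  r : ℝ
  a : ℝ
  b : ℝ
  hr : 0 < r
  ha0 : 0 ≤ a
  ha1 : a < 2 * Real.pi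
  hab : a ≤ b
  hb : b - a < 2 * Real.pi

/-- The points of an arc. -/
def Arc.carrier (A : Arc) : Set ℂ := {z | ∃ φ ∈ Set.Icc A.a A.b, z = pt A.r φ}

/-- The four-sided region whose circular sides have signed radii `s`, `t` over the
directions `[φ₁, φ₂]`; if `s` and `t` have opposite signs the radial sides cross at the origin. -/
def cone (s t φ₁ φ₂ : ℝ) : Set ℂ :=
  {z | ∃ φ ∈ Set.Icc φ₁ φ₂, ∃ u ∈ Set.uIcc s t, z = pt u φ}

/-- A circular side of a cone. -/
def side (s φ₁ φ₂ : ℝ) : Set ℂ := {z | ∃ φ ∈ Set.Icc φ₁ φ₂, z = pt s φ}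

/-- `u` and `v` are radially `k`-visible: some non-degenerate cone has its two circular sides
inside the arcs of `u` and `v` and meets at most `k` other arcs. -/
def KVisible {V : Type} (k : ℕ) (A : V → Arc) (u v : V) : Prop :=
  ∃ s t φ₁ φ₂ : ℝ, s ≠ 0 ∧ t ≠ 0 ∧ s ≠ t ∧ φ₁ < φ₂ ∧ φ₂ < φ₁ + Real.pi ∧
    side s φ₁ φ₂ ⊆ (A u).carrier ∧ side t φ₁ φ₂ ⊆ (A v).carrier ∧
    {w : V | w ≠ u ∧ w ≠ v ∧ (cone s t φ₁ φ₂ ∩ (A w).carrier).Nonempty}.encard ≤ k

/-- `G` is a semi-arc `k`-visibility graph: pairwise disjoint arcs, each with its negative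
endpoint on the positive `x`-axis, adjacency being radial `k`-visibility. -/
def IsSemiArcVisibility {V : Type} (k : ℕ) (G : SimpleGraph V) : Prop :=
  ∃ A : V → Arc, (∀ v, (A v).a = 0) ∧
    (∀ u v, u ≠ v → Disjoint (A u).carrier (A v).carrier) ∧
    ∀ u v, u ≠ v → (G.Adj u v ↔ KVisible k A u v)

lemma pt_eq {u r φ ψ : ℝ} (hr : 0 < r) (hφ : 0 < φ) (hφ' : φ < Real.pi) (hψ : 0 ≤ ψ)
    (hψ' : ψ < 2 * Real.pi) (h : pt u φ = pt r ψ) :
    (u = r ∧ φ = ψ) ∨ (u = -r ∧ φ + Real.pi = ψ) := by
  have hpi := Real.pi_pos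
  unfold pt at h
  have hn := congrArg (fun z : ℂ => ‖z‖) h
  simp only [norm_mul, Complex.norm_exp_ofReal_mul_I, mul_one, Complex.norm_real,
    Real.norm_eq_abs, abs_of_pos hr] at hn
  rcases abs_eq hr.le |>.1 hn with hu | hu
  · left
    subst hu
    refine ⟨rfl, ?_⟩
    have hne : (u : ℂ) ≠ 0 := by exact_mod_cast hr.ne'
    have h2 := mul_left_cancel₀ hne h
    rw [Complex.exp_eq_exp_iff_exists_int] at h2
    obtain ⟨n, hn⟩ := h2
    have h3 : (φ : ℂ) = ψ + n * (2 * Real.pi) := by
      have : ((φ : ℂ) - (ψ + n * (2 * Real.pi))) * Complex.I = 0 := by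
        linear_combination hn
      rcases mul_eq_zero.1 this with h | h
      · linear_combination h
      · exact absurd h Complex.I_ne_zero
    have h4 : φ = ψ + n * (2 * Real.pi) := by exact_mod_cast h3
    have hn0 : n = 0 := by
      have h5 : (n : ℝ) * (2 * Real.pi) < 1 * (2 * Real.pi) := by linarith
      have h6 : (-1 : ℝ) * (2 * Real.pi) < n * (2 * Real.pi) := by linarith
      have h7 := lt_of_mul_lt_mul_right h5 (by positivity)
      have h8 := lt_of_mul_lt_mul_right h6 (by positivity)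
      have h9 : n < 1 := by exact_mod_cast h7
      have h10 : -1 < n := by exact_mod_cast h8
      omega
    rw [hn0] at h4
    simpa using h4
  · right
    subst hu
    refine ⟨rfl, ?_⟩
    have hne : (r : ℂ) ≠ 0 := by exact_mod_cast hr.ne'
    have hexp : Complex.exp (((φ + Real.pi : ℝ) : ℂ) * Complex.I) =
        - Complex.exp ((φ : ℂ) * Complex.I) := by
      rw [Complex.ofReal_add, add_mul, Complex.exp_add, Complex.exp_pi_mul_I]
      ring
    have h2 : Complex.exp (((φ + Real.pi : ℝ) : ℂ) * Complex.I) =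
        Complex.exp ((ψ : ℂ) * Complex.I) := by
      apply mul_left_cancel₀ hne
      rw [hexp, ← h]
      push_cast
      ring
    rw [Complex.exp_eq_exp_iff_exists_int] at h2
    obtain ⟨n, hn⟩ := h2
    have h3 : (((φ + Real.pi : ℝ) : ℂ)) = ψ + n * (2 * Real.pi) := by
      have : ((((φ + Real.pi : ℝ) : ℂ)) - (ψ + n * (2 * Real.pi))) * Complex.I = 0 := by
        linear_combination hn
      rcases mul_eq_zero.1 this with h | h
      · linear_combination h
      · exact absurd h Complex.I_ne_zero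
    have h4 : φ + Real.pi = ψ + n * (2 * Real.pi) := by exact_mod_cast h3
    have hn0 : n = 0 := by
      have h5 : (n : ℝ) * (2 * Real.pi) < 1 * (2 * Real.pi) := by linarith
      have h6 : (-1 : ℝ) * (2 * Real.pi) < n * (2 * Real.pi) := by linarith
      have h7 := lt_of_mul_lt_mul_right h5 (by positivity)
      have h8 := lt_of_mul_lt_mul_right h6 (by positivity)
      have h9 : n < 1 := by exact_mod_cast h7
      have h10 : -1 < n := by exact_mod_cast h8
      omega
    rw [hn0] at h4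
    simpa using h4

lemma pt_neg (t φ : ℝ) : pt (-t) φ = pt t (φ + Real.pi) := by
  unfold pt
  rw [Complex.ofReal_add, add_mul, Complex.exp_add, Complex.exp_pi_mul_I]
  push_cast
  ring

/-- The event time of the arc of rank `w`. -/
def T (k w : ℕ) : ℕ :=
  if w ≤ k then k + 3 + 2 * w else if w ≤ 2 * k + 2 then w - k else k + 4 + 2 * (w - (2 * k + 3))

/-- The time unit. -/
noncomputable def un (k : ℕ) : ℝ := Real.pi / (3 * k + 5)

lemma T_le (k w : ℕ) (hw : w < 3 * k + 4) : T k w ≤ 3 * k + 4 := by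
  unfold T
  split_ifs <;> omega

lemma un_pos (k : ℕ) : 0 < un k := by
  unfold un
  have := Real.pi_pos
  positivity

lemma un_mul (k : ℕ) : un k * (3 * k + 5) = Real.pi := by
  unfold un
  have : (3 * (k : ℝ) + 5) ≠ 0 := by positivity
  field_simp

/-- End angle of the arc of rank `w`. -/
noncomputable def endAngle (k w : ℕ) : ℝ := (if w ≤ k then 0 else Real.pi) + un k * T k w

lemma unT_lt (k w : ℕ) (hw : w < 3 * k + 4) : un k * T k w < Real.pi := by
  rw [← un_mul k]
  apply mul_lt_mul_of_pos_left _ (un_pos k)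
  have : (T k w : ℝ) ≤ 3 * k + 4 := by exact_mod_cast T_le k w hw
  linarith

noncomputable def arc (k : ℕ) (w : Fin (3 * k + 4)) : Arc where
  r := (w : ℕ) + 1
  a := 0
  b := endAngle k w
  hr := by positivity
  ha0 := le_refl _
  ha1 := by have := Real.pi_pos; positivity
  hab := by
    unfold endAngle
    have := Real.pi_pos
    have := un_pos k
    split_ifs <;> positivity
  hb := by
    unfold endAngle
    have := Real.pi_pos
    have := unT_lt k w w.2
    split_ifs <;> linarith

lemma endAngle_lt (k : ℕ) (w : Fin (3 * k + 4)) : endAngle k w < 2 * Real.pi := by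
  have := (arc k w).hb
  simpa [arc] using this

lemma disj (k : ℕ) (u v : Fin (3 * k + 4)) (h : u ≠ v) :
    Disjoint (arc k u).carrier (arc k v).carrier := by
  rw [Set.disjoint_left]
  rintro z ⟨φ, -, rfl⟩ ⟨ψ, -, h2⟩
  apply h
  have hn := congrArg (fun z : ℂ => ‖z‖) h2
  simp only [pt, norm_mul, Complex.norm_exp_ofReal_mul_I, mul_one, Complex.norm_real,
    Real.norm_eq_abs, abs_of_pos (arc k u).hr, abs_of_pos (arc k v).hr] at hn
  simp only [arc, add_left_inj, Nat.cast_inj] at hn
  exact Fin.ext hn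

/-- the angular interval of cell `τ` -/
lemma cell_pos (k τ : ℕ) (hτ : τ ≤ 3 * k + 4) {φ : ℝ}
    (hφ : φ ∈ Set.Icc (un k * (τ + 1 / 4)) (un k * (τ + 3 / 4))) : 0 < φ ∧ φ < Real.pi := by
  have hu := un_pos k
  constructor
  · have : 0 < un k * (τ + 1 / 4 : ℝ) := by positivity
    linarith [hφ.1]
  · have h1 : un k * (τ + 3 / 4 : ℝ) < un k * (3 * k + 5) := by
      apply mul_lt_mul_of_pos_left _ hu
      have : (τ : ℝ) ≤ 3 * k + 4 := by exact_mod_cast hτ
      linarith
    rw [un_mul k] at h1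
    linarith [hφ.2]

lemma alive_of_le (k τ t : ℕ) {φ : ℝ}
    (hφ : φ ∈ Set.Icc (un k * (τ + 1 / 4)) (un k * (τ + 3 / 4))) (h : φ ≤ un k * t) :
    τ + 1 ≤ t := by
  have hu := un_pos k
  by_contra hcon
  have h1 : t ≤ τ := by omega
  have h2 : (t : ℝ) ≤ τ := by exact_mod_cast h1
  have h3 : un k * (t : ℝ) < un k * (τ + 1 / 4) := by
    apply mul_lt_mul_of_pos_left _ hu
    linarith
  linarith [hφ.1]

lemma le_of_alive (k τ t : ℕ) {φ : ℝ}
    (hφ : φ ∈ Set.Icc (un k * (τ + 1 / 4)) (un k * (τ + 3 / 4))) (h : τ + 1 ≤ t) :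
    φ ≤ un k * t := by
  have hu := un_pos k
  have h2 : (τ : ℝ) + 1 ≤ t := by exact_mod_cast h
  have h3 : un k * (τ + 3 / 4 : ℝ) ≤ un k * t := by
    apply mul_le_mul_of_nonneg_left _ hu.le
    linarith
  linarith [hφ.2]

/-- A point of signed radius `u` over the cell `τ` on an arc. -/
lemma mem_arc (k τ : ℕ) (hτ : τ ≤ 3 * k + 4) (w : Fin (3 * k + 4)) {φ u : ℝ}
    (hφ : φ ∈ Set.Icc (un k * (τ + 1 / 4)) (un k * (τ + 3 / 4)))
    (h : pt u φ ∈ (arc k w).carrier) :
    (u = (w : ℕ) + 1 ∧ (k < w.1 ∨ τ + 1 ≤ T k w)) ∨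
      (u = -((w : ℕ) + 1) ∧ k < w.1 ∧ τ + 1 ≤ T k w) := by
  obtain ⟨ψ, hψ, h⟩ := h
  have hc := cell_pos k τ hτ hφ
  have he := endAngle_lt k w
  have hpi := Real.pi_pos
  have h0 : (0 : ℝ) ≤ ψ := hψ.1
  have h1 : ψ ≤ endAngle k w := hψ.2
  rcases pt_eq (arc k w).hr hc.1 hc.2 h0 (by linarith) h with ⟨hu, hh⟩ | ⟨hu, hh⟩
  · left
    refine ⟨hu, ?_⟩
    by_cases hk : (w : ℕ) ≤ k
    · right
      have h2 : φ ≤ un k * T k w := by
        have h3 := h1
        unfold endAngle at h3
        rw [if_pos hk] at h3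
        linarith
      exact alive_of_le k τ _ hφ h2
    · left
      omega
  · right
    refine ⟨hu, ?_⟩
    by_cases hk : (w : ℕ) ≤ k
    · exfalso
      have h3 := h1
      unfold endAngle at h3
      rw [if_pos hk] at h3
      have := unT_lt k w w.2
      linarith
    · refine ⟨by omega, ?_⟩
      have h2 : φ ≤ un k * T k w := by
        have h3 := h1
        unfold endAngle at h3
        rw [if_neg hk] at h3
        linarith
      exact alive_of_le k τ _ hφ h2

lemma side_pos (k τ : ℕ) (hτ : τ ≤ 3 * k + 4) (w : Fin (3 * k + 4))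
    (h : k < w.1 ∨ τ + 1 ≤ T k w) :
    side ((w : ℕ) + 1) (un k * (τ + 1 / 4)) (un k * (τ + 3 / 4)) ⊆ (arc k w).carrier := by
  rintro z ⟨φ, hφ, rfl⟩
  have hc := cell_pos k τ hτ hφ
  have hu := un_pos k
  refine ⟨φ, ⟨hc.1.le, ?_⟩, rfl⟩
  show φ ≤ endAngle k w
  unfold endAngle
  by_cases hk : (w : ℕ) ≤ k
  · rw [if_pos hk]
    have h2 : τ + 1 ≤ T k w := by
      rcases h with h | h
      · omega
      · exact h
    have := le_of_alive k τ _ hφ h2
    linarith
  · rw [if_neg hk]
    have : 0 ≤ un k * T k w := by positivity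
    linarith

lemma side_neg (k τ : ℕ) (hτ : τ ≤ 3 * k + 4) (w : Fin (3 * k + 4))
    (hk : k < w.1) (h : τ + 1 ≤ T k w) :
    side (-((w : ℕ) + 1)) (un k * (τ + 1 / 4)) (un k * (τ + 3 / 4)) ⊆ (arc k w).carrier := by
  rintro z ⟨φ, hφ, rfl⟩
  have hc := cell_pos k τ hτ hφ
  have hu := un_pos k
  have hpi := Real.pi_pos
  rw [pt_neg]
  refine ⟨φ + Real.pi, ⟨?_, ?_⟩, rfl⟩
  · show (0 : ℝ) ≤ φ + Real.pi
    linarith [hc.1]
  · show φ + Real.pi ≤ endAngle k w
    unfold endAngle
    rw [if_neg (by omega)]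
    have := le_of_alive k τ _ hφ h
    linarith

lemma encard_le (n k : ℕ) (X : Set (Fin n)) (S : Finset ℕ) (hS : S.card ≤ k)
    (h : ∀ w ∈ X, (w : ℕ) ∈ S) : X.encard ≤ k := by
  have h1 : X.encard = (Fin.val '' X).encard := (Fin.val_injective.injOn.encard_image).symm
  rw [h1]
  have h2 : (Fin.val '' X) ⊆ (S : Set ℕ) := by
    rintro _ ⟨w, hw, rfl⟩
    exact h w hw
  calc (Fin.val '' X).encard ≤ (S : Set ℕ).encard := Set.encard_le_encard h2
    _ = S.card := Set.encard_coe_eq_coe_finsetCard S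
    _ ≤ k := by exact_mod_cast hS

lemma KVisible_symm {V : Type} {k : ℕ} {A : V → Arc} {u v : V} (h : KVisible k A u v) :
    KVisible k A v u := by
  obtain ⟨s, t, φ₁, φ₂, hs, ht, hst, h1, h2, h3, h4, h5⟩ := h
  refine ⟨t, s, φ₁, φ₂, ht, hs, hst.symm, h1, h2, h4, h3, ?_⟩
  have : {w : V | w ≠ v ∧ w ≠ u ∧ (cone t s φ₁ φ₂ ∩ (A w).carrier).Nonempty} =
      {w : V | w ≠ u ∧ w ≠ v ∧ (cone s t φ₁ φ₂ ∩ (A w).carrier).Nonempty} := by
    ext w
    simp only [Set.mem_setOf_eq, cone, Set.uIcc_comm t s]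
    tauto
  rw [this]
  exact h5

lemma cell_width (k τ : ℕ) :
    un k * (τ + 1 / 4) < un k * (τ + 3 / 4 : ℝ) ∧
      un k * (τ + 3 / 4 : ℝ) < un k * (τ + 1 / 4) + Real.pi := by
  have hu := un_pos k
  have h1 := un_mul k
  have h2 : (0 : ℝ) ≤ k := by positivity
  constructor
  · apply mul_lt_mul_of_pos_left _ hu
    linarith
  · rw [← h1]
    nlinarith

/-- Same-side visibility of arcs whose ranks differ by at most `k+1`. -/
lemma same (k : ℕ) (a b : Fin (3 * k + 4)) (hab : a.1 < b.1) (hk : b.1 ≤ a.1 + k + 1) :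
    KVisible k (arc k) a b := by
  have hw := cell_width k 0
  refine ⟨(a : ℕ) + 1, (b : ℕ) + 1, un k * ((0 : ℕ) + 1 / 4), un k * ((0 : ℕ) + 3 / 4),
    by positivity, by positivity, ?_, hw.1, hw.2, ?_, ?_, ?_⟩
  · intro h
    have : (a : ℕ) = b := by
      have h2 : ((a : ℕ) : ℝ) = (b : ℕ) := by linarith
      exact_mod_cast h2
    omega
  · apply side_pos k 0 (by omega)
    right
    unfold T
    split_ifs <;> omega
  · apply side_pos k 0 (by omega)
    right
    unfold T
    split_ifs <;> omega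
  · apply encard_le _ k _ (Finset.Ioo a.1 b.1)
    · simp
      omega
    · rintro w ⟨hwa, hwb, z, ⟨φ, hφ, u, hu, rfl⟩, hz⟩
      have hab' : ((a : ℕ) : ℝ) + 1 ≤ (b : ℕ) + 1 := by
        have : ((a : ℕ) : ℝ) ≤ (b : ℕ) := by exact_mod_cast hab.le
        linarith
      rw [Set.uIcc_of_le hab'] at hu
      rcases mem_arc k 0 (by omega) w hφ hz with ⟨h1, -⟩ | ⟨h1, -⟩
      · rw [h1] at hu
        have h2 : ((a : ℕ) : ℝ) ≤ (w : ℕ) := by linarith [hu.1]
        have h3 : ((w : ℕ) : ℝ) ≤ (b : ℕ) := by linarith [hu.2]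
        have h4 : a.1 ≤ w.1 := by exact_mod_cast h2
        have h5 : w.1 ≤ b.1 := by exact_mod_cast h3
        have h6 : w.1 ≠ a.1 := fun h => hwa (Fin.ext h)
        have h7 : w.1 ≠ b.1 := fun h => hwb (Fin.ext h)
        rw [Finset.mem_Ioo]
        omega
      · exfalso
        rw [h1] at hu
        have h2 : (0 : ℝ) ≤ (a : ℕ) := by positivity
        have h3 : (0 : ℝ) ≤ (w : ℕ) := by positivity
        linarith [hu.1]

/-- Visibility through the origin in cell `τ`. -/
lemma cross (k τ : ℕ) (hτ : τ ≤ 3 * k + 4) (a b : Fin (3 * k + 4))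
    (ha : k < a.1) (hTa : τ + 1 ≤ T k a) (hb : k < b.1 ∨ τ + 1 ≤ T k b)
    (S : Finset ℕ) (hS : S.card ≤ k)
    (h1 : ∀ w : ℕ, w < b.1 → w ≠ a.1 → (k < w ∨ τ + 1 ≤ T k w) → w ∈ S)
    (h2 : ∀ w : ℕ, w < a.1 → w ≠ b.1 → k < w → τ + 1 ≤ T k w → w ∈ S) :
    KVisible k (arc k) a b := by
  have hw := cell_width k τ
  have ha0 : (0 : ℝ) ≤ (a : ℕ) := by positivity
  have hb0 : (0 : ℝ) ≤ (b : ℕ) := by positivity
  refine ⟨-((a : ℕ) + 1), (b : ℕ) + 1, un k * (τ + 1 / 4), un k * (τ + 3 / 4),
    ?_, by positivity, ?_, hw.1, hw.2, ?_, ?_, ?_⟩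
  · intro h
    linarith
  · intro h
    linarith
  · exact side_neg k τ hτ a ha hTa
  · exact side_pos k τ hτ b hb
  · apply encard_le _ k _ S hS
    rintro w ⟨hwa, hwb, z, ⟨φ, hφ, u, hu, rfl⟩, hz⟩
    have h6 : w.1 ≠ a.1 := fun h => hwa (Fin.ext h)
    have h7 : w.1 ≠ b.1 := fun h => hwb (Fin.ext h)
    have hab' : -(((a : ℕ) : ℝ) + 1) ≤ (b : ℕ) + 1 := by linarith
    rw [Set.uIcc_of_le hab'] at hu
    rcases mem_arc k τ hτ w hφ hz with ⟨h3, h4⟩ | ⟨h3, h4, h5⟩
    · rw [h3] at hu
      have h8 : ((w : ℕ) : ℝ) ≤ (b : ℕ) := by linarith [hu.2]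
      have h9 : w.1 ≤ b.1 := by exact_mod_cast h8
      exact h1 w (by omega) h6 h4
    · rw [h3] at hu
      have h8 : ((w : ℕ) : ℝ) ≤ (a : ℕ) := by linarith [hu.1]
      have h9 : w.1 ≤ a.1 := by exact_mod_cast h8
      exact h2 w (by omega) h7 h4 h5

lemma vis (k : ℕ) (a b : Fin (3 * k + 4)) (hab : a.1 < b.1) : KVisible k (arc k) a b := by
  have ha := a.2
  have hb := b.2
  by_cases h0 : b.1 ≤ a.1 + k + 1
  · exact same k a b hab h0
  · apply KVisible_symm
    by_cases hk : a.1 ≤ k
    · -- `a` short, `b` long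
      by_cases hb1 : b.1 ≤ 2 * k + 2
      · apply cross k (b.1 - k - 1) (by omega) b a (by omega) ?_ ?_ (Finset.range a.1)
          (by simp; omega)
        · intro w h1 h2 h3
          simp; omega
        · intro w h1 h2 h3 h4
          exfalso
          unfold T at h4
          split_ifs at h4 <;> omega
        · unfold T
          split_ifs <;> omega
        · right
          unfold T
          split_ifs <;> omega
      · by_cases hyt : b.1 - (2 * k + 3) ≤ a.1
        · apply cross k (k + 2 + 2 * (b.1 - (2 * k + 3))) (by omega) b a (by omega) ?_ ?_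
            (Finset.Ico (b.1 - (2 * k + 3)) a.1) (by simp; omega)
          · intro w h1 h2 h3
            rw [Finset.mem_Ico]
            refine ⟨?_, h1⟩
            rcases h3 with h3 | h3
            · omega
            · unfold T at h3
              split_ifs at h3 <;> omega
          · intro w h1 h2 h3 h4
            exfalso
            unfold T at h4
            split_ifs at h4 <;> omega
          · unfold T
            split_ifs <;> omega
          · right
            unfold T
            split_ifs <;> omega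
        · apply cross k (k + 2 + 2 * a.1) (by omega) b a (by omega) ?_ ?_
            (Finset.Ico (2 * k + 3 + a.1) b.1) (by simp; omega)
          · intro w h1 h2 h3
            exfalso
            rcases h3 with h3 | h3
            · omega
            · unfold T at h3
              split_ifs at h3 <;> omega
          · intro w h1 h2 h3 h4
            rw [Finset.mem_Ico]
            refine ⟨?_, h1⟩
            unfold T at h4
            split_ifs at h4 <;> omega
          · unfold T
            split_ifs <;> omega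
          · right
            unfold T
            split_ifs <;> omega
    · -- both long
      have hb1 : 2 * k + 3 ≤ b.1 := by omega
      apply cross k (k + 3 + 2 * (b.1 - (2 * k + 3))) (by omega) b a (by omega) ?_ ?_
        (Finset.Ico (b.1 - (2 * k + 3) + 1) a.1) (by simp; omega)
      · intro w h1 h2 h3
        rw [Finset.mem_Ico]
        refine ⟨?_, h1⟩
        rcases h3 with h3 | h3
        · omega
        · unfold T at h3
          split_ifs at h3 <;> omega
      · intro w h1 h2 h3 h4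
        exfalso
        unfold T at h4
        split_ifs at h4 <;> omega
      · unfold T
        split_ifs <;> omega
      · left
        omega

/-- For every `k ≥ 0` the complete graph `K_{3k+4}` is a semi-arc `k`-visibility graph. -/
theorem result : ∀ k : ℕ, IsSemiArcVisibility k (⊤ : SimpleGraph (Fin (3 * k + 4))) := by
  intro k
  refine ⟨arc k, fun v => rfl, disj k, ?_⟩
  intro u v huv
  constructor
  · intro _
    rcases lt_or_gt_of_ne (fun h : u.1 = v.1 => huv (Fin.ext h)) with h | h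
    · exact vis k u v h
    · exact KVisible_symm (vis k v u h)
  · intro _
    rw [SimpleGraph.top_adj]
    exact huv

end Pool.Agent.Results.MP_e2d93f_co.AllK
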